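import Mathlib
import Pool.Agent.H56Z.EP.Fam

set_option autoImplicit false

namespace Pool.Agent.Results.MP_b3bbc0_lc.ASameProfile

open Pool.Agent.Helper760.EP Pool.Agent.H56Z.EP

/-- **All random edges of the line-point incidence graph have the same extended profile.**
The first three clauses and the first part of the conclusion say that the objects quantified over
exist. -/
theorem result :
    (∃ U, OptPlain U) ∧ (∃ pr, PairCode pr) ∧
    (∃ enc : List (List Bool × List Bool) → List Bool,
      Computable enc ∧ Function.Injective enc) ∧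
    ∀ (U : List Bool →. List Bool) (pr : List Bool → List Bool → List Bool)
      (enc : List (List Bool × List Bool) → List Bool),
      OptPlain U → PairCode pr → Computable enc → Function.Injective enc →
      (∃ k : ℝ, ∀ n : ℕ, 2 ≤ n → ∃ (F : Type) (_ : Field F) (_ : Fintype F)
        (cl : Set (F × F) → List Bool) (cp : F × F → List Bool),
        SimplePlane U enc k n F cl cp ∧ ∃ x y, RandomEdge U pr k n cl cp x y) ∧
      ∀ k : ℝ, ∃ d : ℝ, ∀ n : ℕ, 2 ≤ n → ∀ (F : Type) [Field F] [Fintype F]
        (cl : Set (F × F) → List Bool) (cp : F × F → List Bool), SimplePlane U enc k n F cl cp →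
        ∀ x y x' y' : List Bool,
          RandomEdge U pr k n cl cp x y → RandomEdge U pr k n cl cp x' y' →
          ∀ q : List Bool, ∃ q' : List Bool, ∀ i : Fin 7,
            |(prof U pr x' y' q' i : ℝ) - (prof U pr x y q i : ℝ)| ≤
              d * Real.logb 2 ((n : ℝ) + CU U q) :=
  ⟨J4305.exist_all.1, J4305.exist_all.2.2, exists_enc, fun U pr enc hU hpr henc hinj =>
    ⟨nonvacuous U pr enc hU hpr henc, same_profile U pr enc hU hpr henc hinj⟩⟩

end Pool.Agent.Results.MP_b3bbc0_lc.ASameProfile
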