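import Mathlib
import Pool.Agent.H56Z.EP.Long

set_option autoImplicit false

namespace Pool.Agent.Results.MP_b3bbc0_lc.BUnboundedQ

open Pool.Agent.Helper760.EP Pool.Agent.H56Z.EP

/-- **With no bound on the complexity of `q`, the precision `O(log n)` fails.** -/
theorem result :
    ∀ (U : List Bool →. List Bool) (pr : List Bool → List Bool → List Bool)
      (enc : List (List Bool × List Bool) → List Bool),
      OptPlain U → PairCode pr → Computable enc → Function.Injective enc →
      ∃ k : ℝ, ∀ d : ℝ, ∃ n : ℕ, 2 ≤ n ∧ ∃ (F : Type) (_ : Field F) (_ : Fintype F)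
        (cl : Set (F × F) → List Bool) (cp : F × F → List Bool),
        SimplePlane U enc k n F cl cp ∧ ∃ x y x' y' q : List Bool,
          RandomEdge U pr k n cl cp x y ∧ RandomEdge U pr k n cl cp x' y' ∧
          ∀ q' : List Bool, ∃ i : Fin 7,
            d * Real.logb 2 n < |(prof U pr x' y' q' i : ℝ) - (prof U pr x y q i : ℝ)| :=
  fun U pr enc hU hpr henc _ => long_q U pr enc hU hpr henc

end Pool.Agent.Results.MP_b3bbc0_lc.BUnboundedQ
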